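import Pool.Agent.H47.UG.Ch

/-!
# Localisation of the lattices `GP` on the chart `(i,j)`
-/

set_option autoImplicit false

open MvPolynomial

namespace Pool.Agent.H45.UG

open Pool.Agent.H47.UG

section

variable {K : Type} [Field K] {n : ℕ}

/-- A monomial of degree `q` as a product of `q` variables. -/
theorem mono_prod (k : ℕ) : ∀ (q m : ℕ) (b : ℕ × Fin n →₀ ℕ), (∀ p ∈ b.support, p.1 < k) →
    Finsupp.weight FF.w b = m → b.degree = q → ∃ (s : Fin q → Fin k) (l : Fin q → Fin n),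
      ∑ r, ((s r : ℕ) + 1) = m ∧
      (monomial b 1 : MvPolynomial (ℕ × Fin n) K) = ∏ r, X ((s r : ℕ), l r) := by
  classical
  intro q
  induction q with
  | zero =>
    intro m b _ hw hd
    have hb : b = 0 := (Finsupp.degree_eq_zero_iff b).1 hd
    subst hb
    refine ⟨Fin.elim0, Fin.elim0, ?_, ?_⟩
    · simpa using hw
    · simp
  | succ q ih =>
    intro m b hk hw hd
    have hb : b ≠ 0 := by
      rintro rfl
      simp at hd
    obtain ⟨p, hp⟩ := Finsupp.support_nonempty_iff.2 hb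
    have hp1 : 1 ≤ b p := Nat.one_le_iff_ne_zero.2 (Finsupp.mem_support_iff.1 hp)
    have hle : Finsupp.single p 1 ≤ b := Finsupp.single_le_iff.2 hp1
    obtain ⟨b', rfl⟩ : ∃ b', b = b' + Finsupp.single p 1 := ⟨b - Finsupp.single p 1, (tsub_add_cancel_of_le hle).symm⟩
    have hd' : b'.degree = q := by
      rw [map_add, Finsupp.degree_single] at hd
      omega
    have hw' : Finsupp.weight FF.w b' + (p.1 + 1) = m := by
      rw [map_add, Finsupp.weight_single] at hw
      simpa [FF.w] using hw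
    have hk' : ∀ p ∈ b'.support, p.1 < k := fun p' hp' => hk p' (by
      rw [Finsupp.mem_support_iff] at hp' ⊢
      rw [Finsupp.add_apply]
      omega)
    obtain ⟨s, l, h1, h2⟩ := ih _ b' hk' rfl hd'
    refine ⟨Fin.cons ⟨p.1, hk p hp⟩ s, Fin.cons p.2 l, ?_, ?_⟩
    · rw [Fin.sum_univ_succ]
      simp only [Fin.cons_zero, Fin.cons_succ]
      omega
    · rw [Fin.prod_univ_succ]
      simp only [Fin.cons_zero, Fin.cons_succ]
      rw [← h2, monomial_add_single, pow_one, mul_comm]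

end

variable {K : Type} [Field K] {n d : ℕ} {F : HP K n} (T : FF d F)

theorem OO_smul (e : ℤ) (i : Fin (n + 2)) (a : T.L) (ha : a ∈ T.A i) (v : T.L) (hv : v ∈ T.OO e i) :
    a * v ∈ T.OO e i := by
  induction hv using Submodule.span_induction with
  | mem x hx =>
    obtain ⟨b, hb, rfl⟩ := hx
    exact Submodule.subset_span ⟨a * b, mul_mem ha hb, by ring⟩
  | zero => simp
  | add x y _ _ hx hy => rw [mul_add]; exact add_mem hx hy
  | smul c x _ hx => rw [mul_smul_comm]; exact Submodule.smul_mem _ _ hx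

theorem OO_shift (e e' : ℤ) (i : Fin (n + 2)) (v : T.L) (hv : v ∈ T.OO e i) :
    T.x i ^ e' * v ∈ T.OO (e + e') i := by
  induction hv using Submodule.span_induction with
  | mem x hx =>
    obtain ⟨b, hb, rfl⟩ := hx
    exact Submodule.subset_span ⟨b, hb, by rw [zpow_add₀ (T.x_ne i)]; ring⟩
  | zero => simp
  | add x y _ _ hx hy => rw [mul_add]; exact add_mem hx hy
  | smul c x _ hx => rw [mul_smul_comm]; exact Submodule.smul_mem _ _ hx

theorem GG_smul (k : ℕ) (e : ℤ) (m q : ℕ) (i : Fin (n + 2)) (a : T.L) (ha : a ∈ T.A i) (v : T.BB)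
    (hv : v ∈ T.GG k e m q i) : C a * v ∈ T.GG k e m q i := by
  induction hv using Submodule.span_induction with
  | mem x hx =>
    obtain ⟨b, hb, s, l, h1, rfl⟩ := hx
    exact Submodule.subset_span ⟨a * b, mul_mem ha hb, s, l, h1, by simp only [C_mul]; ring⟩
  | zero => simp
  | add x y _ _ hx hy => rw [mul_add]; exact add_mem hx hy
  | smul c x _ hx => rw [mul_smul_comm]; exact Submodule.smul_mem _ _ hx

theorem GP_smul (k p : ℕ) (e : ℤ) (m q : ℕ) (i : Fin (n + 2)) (a : T.L) (ha : a ∈ T.A i) (v : T.BB)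
    (hv : v ∈ T.GP k p e m q i) : C a * v ∈ T.GP k p e m q i := by
  induction hv using Submodule.span_induction with
  | mem x hx =>
    obtain ⟨c, m', q', g, hg, h1, h2, rfl⟩ := hx
    exact Submodule.subset_span ⟨c, m', q', C a * g, GG_smul T k _ m' q' i a ha g hg, h1, h2, by ring⟩
  | zero => simp
  | add x y _ _ hx hy => rw [mul_add]; exact add_mem hx hy
  | smul c x _ hx => rw [mul_smul_comm]; exact Submodule.smul_mem _ _ hx

/-- `C` of an element of `x_i^e A_i` times a product of symbols. -/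
theorem GG_of_OO (k : ℕ) (e : ℤ) (m q : ℕ) (i : Fin (n + 2)) (s : Fin q → Fin k) (l : Fin q → Fin (n + 2))
    (hs : ∑ r, ((s r : ℕ) + 1) = m) (a : T.L) (ha : a ∈ T.OO e i) :
    C a * ∏ r, T.δ (s r) (T.x (l r) / T.x i) ∈ T.GG k e m q i := by
  induction ha using Submodule.span_induction with
  | mem x hx =>
    obtain ⟨b, hb, rfl⟩ := hx
    exact Submodule.subset_span ⟨b, hb, s, l, hs, rfl⟩
  | zero => simp
  | add x y _ _ hx hy => rw [C_add, add_mul]; exact add_mem hx hy
  | smul c x _ hx =>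
    have h : (C (c • x) : T.BB) = c • C x := by
      rw [Algebra.smul_def c x, C_mul, Algebra.smul_def]
      rfl
    rw [h, smul_mul_assoc]
    exact Submodule.smul_mem _ _ hx

theorem locA_div (e : ℤ) (i j : Fin (n + 2)) (hu : T.u i j ≠ 0) (N : ℕ) (a : T.L) (ha : a ∈ T.locA e i j) :
    (T.u i j ^ N)⁻¹ * a ∈ T.locA e i j := by
  obtain ⟨M, hM⟩ := ha
  refine ⟨N + M, ?_⟩
  have : T.u i j ^ (N + M) * ((T.u i j ^ N)⁻¹ * a) = T.u i j ^ M * a := by
    rw [pow_add]
    field_simp
  rw [this]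
  exact hM

/-- The statement of `loc_GG`. -/
def LocGG : Prop := ∀ (k : ℕ) (e : ℤ) (m q : ℕ) (i : Fin (n + 2)) (j : Fin (n + 1)) (v : T.BB),
    (∃ N : ℕ, C (T.u i (i.succAbove j)) ^ N * v ∈ T.GG k e m q i) ↔
    ∃ w : T.BB, v = T.σ i j w ∧ ∀ b, coeff b w ≠ 0 → (∀ p ∈ b.support, p.1 < k) ∧ Finsupp.weight FF.w b = m ∧
      b.degree = q ∧ coeff b w ∈ T.locA e i (i.succAbove j)

/-- The statement of `det_y`. -/
def DetY : Prop := ∀ (k : ℕ) (i : Fin (n + 2)) (j : Fin (n + 1)) (c : Fin n → Fin k),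
    ∃ ε : ℤˣ, Matrix.det (Matrix.of fun l r : Fin n => T.δ (c r) (T.y i j l)) =
      ((ε : ℤ) : T.BB) * C (T.x i ^ ((d : ℤ) - n - 2) * T.u i (i.succAbove j)) * T.ρ c

/-- `map` followed by `σ`. -/
noncomputable def sm (i : Fin (n + 2)) (j : Fin (n + 1)) : MvPolynomial (ℕ × Fin n) K →+* T.BB :=
  (T.σ i j : T.BB →+* T.BB).comp (map (algebraMap K T.L))

theorem sm_X (i : Fin (n + 2)) (j : Fin (n + 1)) (s : ℕ) (l : Fin n) :
    sm T i j (X (s, l)) = T.δ s (T.y i j l) := by
  simp [sm, FF.σ]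

theorem sm_det (i : Fin (n + 2)) (j : Fin (n + 1)) {k : ℕ} (c : Fin n → Fin k) :
    sm T i j (Matrix.det (Matrix.of fun l t : Fin n => (X ((c t : ℕ), l) : MvPolynomial (ℕ × Fin n) K))) =
      Matrix.det (Matrix.of fun l r : Fin n => T.δ (c r) (T.y i j l)) := by
  rw [RingHom.map_det]
  congr 1
  ext1 l t
  exact sm_X T i j _ _

theorem units_cast_sq (ε : ℤˣ) : ((ε : ℤ) : T.BB) * ((ε : ℤ) : T.BB) = 1 := by
  rcases Int.units_eq_one_or ε with h | h <;> simp [h]

/-- The product of the minors on the chart. -/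
theorem prod_det (hD : DetY T) (i : Fin (n + 2)) (j : Fin (n + 1)) {k p : ℕ} (c : Fin p → Fin n → Fin k) :
    ∃ ε : ℤˣ, sm T i j (∏ r, Matrix.det (Matrix.of fun l t : Fin n =>
      (X ((c r t : ℕ), l) : MvPolynomial (ℕ × Fin n) K))) =
      C (((ε : ℤ) : T.L) * (T.x i ^ (p * ((d : ℤ) - n - 2)) * T.u i (i.succAbove j) ^ p)) * ∏ r, T.ρ (c r) := by
  choose ε hε using fun r => hD k i j (c r)
  refine ⟨∏ r, ε r, ?_⟩
  rw [map_prod]
  simp only [sm_det, hε]
  rw [Finset.prod_mul_distrib, Finset.prod_mul_distrib, Finset.prod_const, Finset.card_univ, Fintype.card_fin]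
  congr 1
  rw [← C_pow, mul_pow, ← zpow_natCast, ← zpow_mul, mul_comm ((d : ℤ) - n - 2) (p : ℤ), C_mul]
  simp

theorem units_L (ε : ℤˣ) : ((ε : ℤ) : T.L) * ((ε : ℤ) : T.L) = 1 := by
  rcases Int.units_eq_one_or ε with h | h <;> simp [h]

theorem OO_unit (e : ℤ) (i : Fin (n + 2)) (ε : ℤˣ) (v : T.L) (hv : v ∈ T.OO e i) :
    ((ε : ℤ) : T.L) * v ∈ T.OO e i := by
  rcases Int.units_eq_one_or ε with h | h
  · simpa [h] using hv
  · simpa [h] using hv

theorem sm_C_mul (i : Fin (n + 2)) (j : Fin (n + 1)) (a : T.L) (g : MvPolynomial (ℕ × Fin n) K) :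
    T.σ i j (C a * map (algebraMap K T.L) g) = C a * sm T i j g := by
  rw [map_mul]
  congr 1
  exact (T.σ i j).commutes a

theorem loc_GP_of (hG : LocGG T) (hD : DetY T) (hne : ∀ j, T.fd j ≠ 0) (hmem : ∀ i j, T.u i j ∈ T.A i)
    (k p : ℕ) (e : ℤ) (m q : ℕ) (i : Fin (n + 2)) (j : Fin (n + 1)) (v : T.BB) :
    (∃ N : ℕ, C (T.u i (i.succAbove j)) ^ N * v ∈ T.GP k p e m q i) ↔
    ∃ (r : ℕ) (a : Fin r → T.L) (g : Fin r → MvPolynomial (ℕ × Fin n) K), (∀ t, g t ∈ IP K n k p m q) ∧
      (∀ t, a t ∈ T.locA e i (i.succAbove j)) ∧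
      v = T.σ i j (∑ t, C (a t) * map (algebraMap K T.L) (g t)) := by
  classical
  have hu : T.u i (i.succAbove j) ≠ 0 := div_ne_zero (hne _) (pow_ne_zero _ (T.x_ne i))
  set U := T.u i (i.succAbove j) with hU
  constructor
  · rintro ⟨N, hN⟩
    -- the statement for elements of `GP`
    suffices H : ∀ w ∈ T.GP k p e m q i, ∃ (r : ℕ) (a : Fin r → T.L) (g : Fin r → MvPolynomial (ℕ × Fin n) K),
        (∀ t, g t ∈ IP K n k p m q) ∧ (∀ t, a t ∈ T.locA e i (i.succAbove j)) ∧
        w = T.σ i j (∑ t, C (a t) * map (algebraMap K T.L) (g t)) by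
      obtain ⟨r, a, g, h1, h2, h3⟩ := H _ hN
      refine ⟨r, fun t => (U ^ N)⁻¹ * a t, g, h1, fun t => locA_div T e i _ hu N _ (h2 t), ?_⟩
      have h4 : (C ((U ^ N)⁻¹) : T.BB) * (C U ^ N * v) = v := by
        rw [← mul_assoc, ← C_pow, ← C_mul, inv_mul_cancel₀ (pow_ne_zero _ hu), C_1, one_mul]
      rw [← h4, h3]
      rw [map_sum, map_sum, Finset.mul_sum]
      refine Finset.sum_congr rfl fun t _ => ?_
      rw [sm_C_mul, sm_C_mul, C_mul, mul_assoc]
    intro w hw
    induction hw using Submodule.span_induction with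
    | mem x hx =>
      obtain ⟨c, m', q', g, hg, h1, h2, rfl⟩ := hx
      obtain ⟨w', hw', hb⟩ := (hG k (e + p * ((d : ℤ) - n - 2)) m' q' i j g).1 ⟨0, by simpa using hg⟩
      obtain ⟨ε, hε⟩ := prod_det T hD i j c
      choose s l hsl1 hsl2 using fun (b : ℕ × Fin n →₀ ℕ) (hh : coeff b w' ≠ 0) =>
        mono_prod (K := K) k q' m' b (hb b hh).1 (hb b hh).2.1 (hb b hh).2.2.1
      set P : MvPolynomial (ℕ × Fin n) K := ∏ r, Matrix.det (Matrix.of fun l t : Fin n =>
        (X ((c r t : ℕ), l) : MvPolynomial (ℕ × Fin n) K)) with hP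
      set E := w'.support.equivFin.symm with hE
      refine ⟨w'.support.card, fun t => ((ε : ℤ) : T.L) * (T.x i ^ (-(p * ((d : ℤ) - n - 2))) *
        ((U ^ p)⁻¹ * coeff (E t) w')), fun t => P * monomial (E t : ℕ × Fin n →₀ ℕ) 1, ?_, ?_, ?_⟩
      · intro t
        have ht : coeff (E t : ℕ × Fin n →₀ ℕ) w' ≠ 0 := mem_support_iff.1 (E t).2
        refine Submodule.subset_span ⟨c, q', s (E t) ht, l (E t) ht, h1, ?_, ?_⟩
        · rw [hsl1 _ ht]; exact h2
        · change P * monomial (E t : ℕ × Fin n →₀ ℕ) 1 = _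
          rw [hP, hsl2 _ ht]
      · intro t
        have ht : coeff (E t : ℕ × Fin n →₀ ℕ) w' ≠ 0 := mem_support_iff.1 (E t).2
        obtain ⟨M, hM⟩ := locA_div T _ i _ hu p _ (hb _ ht).2.2.2
        refine ⟨M, ?_⟩
        have h5 := OO_unit T _ i ε _ (OO_shift T _ (-(p * ((d : ℤ) - n - 2))) i _ hM)
        rw [add_neg_cancel_right] at h5
        convert h5 using 1
        ring
      · have h6 : (∏ r, T.ρ (c r)) = C (((ε : ℤ) : T.L) * (T.x i ^ (-(p * ((d : ℤ) - n - 2))) * (U ^ p)⁻¹)) *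
            sm T i j P := by
          rw [hε, ← mul_assoc, ← C_mul]
          have h7 : ((ε : ℤ) : T.L) * (T.x i ^ (-(p * ((d : ℤ) - n - 2))) * (U ^ p)⁻¹) *
              (((ε : ℤ) : T.L) * (T.x i ^ (p * ((d : ℤ) - n - 2)) * T.u i (i.succAbove j) ^ p)) = 1 := by
            rw [← hU]
            have h8 := units_L T ε
            have h9 : T.x i ^ (-(p * ((d : ℤ) - n - 2))) * T.x i ^ (p * ((d : ℤ) - n - 2)) = 1 := by
              rw [← zpow_add₀ (T.x_ne i), neg_add_cancel, zpow_zero]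
            have h10 : (U ^ p)⁻¹ * U ^ p = 1 := inv_mul_cancel₀ (pow_ne_zero _ hu)
            calc _ = (((ε : ℤ) : T.L) * ((ε : ℤ) : T.L)) *
                  (T.x i ^ (-(p * ((d : ℤ) - n - 2))) * T.x i ^ (p * ((d : ℤ) - n - 2))) * ((U ^ p)⁻¹ * U ^ p) := by
                    ring
              _ = 1 := by rw [h8, h9, h10]; ring
          rw [h7, C_1, one_mul]
        rw [h6, hw']
        rw [map_sum]
        conv_lhs => rw [show w' = ∑ b ∈ w'.support, C (coeff b w') * map (algebraMap K T.L) (monomial b 1) by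
          conv_lhs => rw [← support_sum_monomial_coeff w']
          refine Finset.sum_congr rfl fun b _ => ?_
          rw [map_monomial, map_one, C_mul_monomial, mul_one]]
        rw [map_sum, Finset.mul_sum, ← Finset.sum_coe_sort, ← E.sum_comp]
        refine Finset.sum_congr rfl fun t _ => ?_
        rw [sm_C_mul, sm_C_mul]
        simp only [C_mul, map_mul]
        ring
    | zero => exact ⟨0, Fin.elim0, Fin.elim0, fun t => t.elim0, fun t => t.elim0, by simp⟩
    | add x y _ _ hx hy =>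
      obtain ⟨r₁, a₁, g₁, h1, h2, h3⟩ := hx
      obtain ⟨r₂, a₂, g₂, h1', h2', h3'⟩ := hy
      refine ⟨r₁ + r₂, Fin.append a₁ a₂, Fin.append g₁ g₂, ?_, ?_, ?_⟩
      · intro t
        refine Fin.addCases (fun t => ?_) (fun t => ?_) t
        · rw [Fin.append_left]; exact h1 t
        · rw [Fin.append_right]; exact h1' t
      · intro t
        refine Fin.addCases (fun t => ?_) (fun t => ?_) t
        · rw [Fin.append_left]; exact h2 t
        · rw [Fin.append_right]; exact h2' t
      · rw [h3, h3', ← map_add, Fin.sum_univ_add]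
        simp only [Fin.append_left, Fin.append_right]
    | smul c x _ hx =>
      obtain ⟨r, a, g, h1, h2, h3⟩ := hx
      refine ⟨r, a, fun t => c • g t, fun t => Submodule.smul_mem _ _ (h1 t), h2, ?_⟩
      rw [h3]
      have h4 : ∀ y : T.BB, c • y = C (algebraMap K T.L c) * y := fun y => by
        rw [Algebra.smul_def]; rfl
      rw [h4, map_sum, map_sum, Finset.mul_sum]
      refine Finset.sum_congr rfl fun t _ => ?_
      rw [sm_C_mul, sm_C_mul]
      change _ = C (a t) * sm T i j (c • g t)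
      rw [MvPolynomial.smul_eq_C_mul, map_mul]
      have h5 : sm T i j (C c) = C (algebraMap K T.L c) := by
        simp only [sm, RingHom.comp_apply, map_C]
        exact (T.σ i j).commutes _
      rw [h5]
      ring
  · rintro ⟨r, a, g, h1, h2, rfl⟩
    -- the set of localised elements is a submodule
    let S : Submodule K T.BB :=
      { carrier := {v | ∃ N : ℕ, C U ^ N * v ∈ T.GP k p e m q i}
        add_mem' := by
          rintro x y ⟨N, hN⟩ ⟨M, hM⟩
          refine ⟨N + M, ?_⟩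
          rw [mul_add]
          refine add_mem ?_ ?_
          · rw [add_comm N M, pow_add, mul_assoc, ← C_pow]
            exact GP_smul T k p e m q i _ (pow_mem (hmem _ _) _) _ hN
          · rw [pow_add, mul_assoc, ← C_pow]
            exact GP_smul T k p e m q i _ (pow_mem (hmem _ _) _) _ hM
        zero_mem' := ⟨0, by simp⟩
        smul_mem' := by
          rintro c x ⟨N, hN⟩
          exact ⟨N, by rw [mul_smul_comm]; exact Submodule.smul_mem _ _ hN⟩ }
    change _ ∈ S
    rw [map_sum]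
    refine sum_mem fun t _ => ?_
    rw [sm_C_mul]
    obtain ⟨M, hM⟩ := h2 t
    have h3 := h1 t
    generalize a t = b at hM ⊢
    generalize g t = gt at h3 ⊢
    clear h1 h2 g a
    induction h3 using Submodule.span_induction with
    | mem x hx =>
      obtain ⟨c, q', s, l, h4, h5, rfl⟩ := hx
      obtain ⟨ε, hε⟩ := prod_det T hD i j c
      refine ⟨M, Submodule.subset_span ⟨c, ∑ r, ((s r : ℕ) + 1), q',
        C (((ε : ℤ) : T.L) * (U ^ p * (T.x i ^ (p * ((d : ℤ) - n - 2)) * (U ^ M * b)))) *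
          ∏ r, T.δ (s r) (T.x (i.succAbove (j.succAbove (l r))) / T.x i), ?_, h4, h5, ?_⟩⟩
      · refine GG_of_OO T k _ _ q' i s _ rfl _ (OO_unit T _ i ε _ (OO_smul T _ i _ (pow_mem (hmem _ _) _) _ ?_))
        exact OO_shift T e _ i _ hM
      · rw [map_mul, hε, map_prod]
        simp only [sm_X, FF.y, C_mul, C_pow, ← hU]
        ring
    | zero => rw [map_zero, mul_zero]; exact zero_mem _
    | add x y _ _ hx hy => rw [map_add, mul_add]; exact add_mem hx hy
    | smul c x _ hx =>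
      have h4 : (C b : T.BB) * sm T i j (c • x) = c • (C b * sm T i j x) := by
        rw [MvPolynomial.smul_eq_C_mul, map_mul]
        have h5 : sm T i j (C c) = C (algebraMap K T.L c) := by
          simp only [sm, RingHom.comp_apply, map_C]
          exact (T.σ i j).commutes _
        have h6 : ∀ y : T.BB, c • y = C (algebraMap K T.L c) * y := fun y => by
          rw [Algebra.smul_def]; rfl
        rw [h5, h6]
        ring
      rw [h4]
      exact Submodule.smul_mem _ _ hx

end Pool.Agent.H45.UG
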