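import Pool.Agent.H47.UG.Lat

/-!
# Jet differentials as polynomials in the Taylor coefficients, denominators cleared
-/

set_option autoImplicit false

open MvPolynomial

namespace Pool.Agent.H45.UG

open Pool.Agent.H47.UG

/-- Clearing the denominators of a polynomial. -/
theorem clear {R K ι : Type} [CommRing R] [IsDomain R] [Field K] [Algebra R K] [IsFractionRing R K]
    (p : MvPolynomial ι K) : ∃ c : R, c ≠ 0 ∧ ∃ Q : MvPolynomial ι R, C (algebraMap R K c) * p =
      map (algebraMap R K) Q := by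
  classical
  obtain ⟨⟨c, hc⟩, h⟩ := IsLocalization.exist_integer_multiples (nonZeroDivisors R) p.support (fun b => coeff b p)
  refine ⟨c, nonZeroDivisors.ne_zero hc, ?_⟩
  choose! q hq using h
  refine ⟨∑ b ∈ p.support, monomial b (q b), ?_⟩
  rw [map_sum]
  conv_lhs => rw [← support_sum_monomial_coeff p]
  rw [Finset.mul_sum]
  refine Finset.sum_congr rfl fun b hb => ?_
  rw [map_monomial, hq b hb, C_mul_monomial]
  simp [Algebra.smul_def]

variable {K : Type} [Field K] {n d : ℕ} {F : HP K n} (T : FF d F)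

/-- The Taylor coefficients of `x_l / x_i`. -/
noncomputable def tay (i : Fin (n + 2)) (p : Fin (n + 2) × ℕ) : T.BB :=
  ((p.2.factorial : K)⁻¹) • (T.D : T.BB → T.BB)^[p.2] (C (T.x p.1 / T.x i))

/-- An element of `E_{k,m}(e)` is `x_i^e` times a polynomial in the Taylor coefficients of order `≤ k`. -/
theorem mem_EE [CharZero K] (k : ℕ) (e : ℤ) (m : ℕ) (i : Fin (n + 2)) (v : T.BB) (hv : v ∈ T.EE k e m i) :
    ∃ p : MvPolynomial (Fin (n + 2) × Fin (k + 1)) K,
      v = C (T.x i ^ e) * aeval (fun q : Fin (n + 2) × Fin (k + 1) => tay T i (q.1, q.2)) p := by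
  induction hv using Submodule.span_induction with
  | mem x hx =>
    obtain ⟨a, ha, q, s, l, h1, rfl⟩ := hx
    obtain ⟨pa, hpa⟩ : ∃ p : MvPolynomial (Fin (n + 2) × Fin (k + 1)) K,
        (C a : T.BB) = aeval (fun q : Fin (n + 2) × Fin (k + 1) => tay T i (q.1, q.2)) p := by
      change a ∈ Algebra.adjoin K _ at ha
      induction ha using Algebra.adjoin_induction with
      | mem x hx =>
        obtain ⟨l, rfl⟩ := hx
        refine ⟨X (l, 0), ?_⟩
        simp [tay]
      | algebraMap c =>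
        refine ⟨C c, ?_⟩
        rw [← algebraMap_eq (R := K), AlgHom.commutes]
        rfl
      | add x y _ _ hx hy =>
        obtain ⟨p, hp⟩ := hx
        obtain ⟨p', hp'⟩ := hy
        exact ⟨p + p', by rw [C_add, hp, hp', map_add]⟩
      | mul x y _ _ hx hy =>
        obtain ⟨p, hp⟩ := hx
        obtain ⟨p', hp'⟩ := hy
        exact ⟨p * p', by rw [C_mul, hp, hp', map_mul]⟩
    refine ⟨pa * ∏ r, C (((s r : ℕ) + 1).factorial : K) * X (l r, (s r).succ), ?_⟩
    rw [C_mul, mul_assoc, map_mul, ← hpa, map_prod]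
    congr 2
    refine Finset.prod_congr rfl fun r _ => ?_
    rw [map_mul, aeval_X, ← algebraMap_eq (R := K), AlgHom.commutes, tay, mul_smul_comm, ← Algebra.smul_def,
      smul_smul, Fin.val_succ, inv_mul_cancel₀, one_smul]
    exact_mod_cast Nat.factorial_ne_zero _
  | zero => exact ⟨0, by simp⟩
  | add x y _ _ hx hy =>
    obtain ⟨p, hp⟩ := hx
    obtain ⟨p', hp'⟩ := hy
    exact ⟨p + p', by rw [hp, hp', map_add, mul_add]⟩
  | smul c x _ hx =>
    obtain ⟨p, hp⟩ := hx
    exact ⟨c • p, by rw [hp, map_smul, mul_smul_comm]⟩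

/-- Denominators cleared. -/
theorem mem_EE_clear [CharZero K] {R : Type} [CommRing R] [IsDomain R] [Algebra R K] [IsFractionRing R K]
    (k : ℕ) (e : ℤ) (m : ℕ) (i : Fin (n + 2)) (v : T.BB) (hv : v ∈ T.EE k e m i) :
    ∃ c : R, c ≠ 0 ∧ ∃ Q : MvPolynomial (Fin (n + 2) × Fin (k + 1)) R,
      algebraMap K T.BB (algebraMap R K c) * v = C (T.x i ^ e) *
        eval₂ ((algebraMap K T.BB).comp (algebraMap R K))
          (fun q : Fin (n + 2) × Fin (k + 1) => tay T i (q.1, q.2)) Q := by
  obtain ⟨p, hp⟩ := mem_EE T k e m i v hv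
  obtain ⟨c, hc, Q, hQ⟩ := clear (R := R) p
  refine ⟨c, hc, Q, ?_⟩
  rw [← eval₂_map, ← hQ, ← aeval_def, map_mul, hp, ← algebraMap_eq (R := K), AlgHom.commutes]
  ring

end Pool.Agent.H45.UG
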